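import Mathlib

set_option autoImplicit false

namespace Pool.Agent.Results.MP_216313_al.AntiTorus

open Polynomial

/-- the relators `a_i x_j a_{i-j}⁻¹ x_{i+j}⁻¹`; `Sum.inl i` is `a_i` and `Sum.inr j` is `x_j` -/
def rels (X : Type) [AddCommGroup X] : Set (FreeGroup (X ⊕ X)) :=
  {r | ∃ i j : X, r = FreeGroup.of (Sum.inl i) * FreeGroup.of (Sum.inr j) *
    (FreeGroup.of (Sum.inl (i - j)))⁻¹ * (FreeGroup.of (Sum.inr (i + j)))⁻¹}

section aff
variable {K : Type} [CommRing K]

/-- the affine map `t ↦ u t + b` -/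
def aff (u : Kˣ) (b : K) : Equiv.Perm K where
  toFun t := u * t + b
  invFun t := (u⁻¹ : Kˣ) * (t - b)
  left_inv t := by simp
  right_inv t := by simp

lemma aff_apply (u : Kˣ) (b t : K) : aff u b t = u * t + b := rfl

lemma aff_pow (u : Kˣ) (b t : K) (n : ℕ) :
    (aff u b ^ n) t = (u : K) ^ n * t + (∑ k ∈ Finset.range n, (u : K) ^ k) * b := by
  induction n with
  | zero => simp
  | succ n ih =>
    rw [pow_succ', Equiv.Perm.mul_apply, ih, aff_apply, Finset.sum_range_succ']
    simp only [pow_succ', pow_zero]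
    rw [← Finset.mul_sum]
    ring

end aff

lemma commute_natAbs {G : Type} [Group G] {a b : G} {p q : ℤ} (h : Commute (a ^ p) (b ^ q)) :
    Commute (a ^ p.natAbs) (b ^ q.natAbs) := by
  have h1 : Commute (a ^ p.natAbs) (b ^ q) := by
    rcases Int.natAbs_eq p with e | e
    · rw [← zpow_natCast, ← e]; exact h
    · rw [e, zpow_neg, zpow_natCast] at h
      simpa using h.inv_left
  rcases Int.natAbs_eq q with e | e
  · rw [← zpow_natCast b, ← e]; exact h1
  · rw [e, zpow_neg, zpow_natCast] at h1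
    simpa using h1.inv_right

lemma nzd {S : Type} [CommRing S] (f : S[X]) (hf : f.coeff 0 = 1) : f ∈ nonZeroDivisors S[X] :=
  Polynomial.mem_nonZeroDivisors_iff.mpr fun a ha => by
    have := congrArg (fun g => coeff g 0) ha
    simpa [hf] using this

lemma core (S : Type) [CommRing S] (i j : S) (p q : ℕ) (hq : q ≠ 0)
    (h : (1 - X ^ q) * (∑ k ∈ Finset.range (p + 1), (1 - 2 * X) ^ k * (1 - X) ^ (p + 1 - 1 - k)) *
      ((1 - X) * C i - X * C j) = (0 : S[X])) : i = 0 ∧ j = 0 := by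
  have r1 : ∀ n : ℕ, n ≠ 0 → (1 - X ^ n : S[X]) ∈ nonZeroDivisors S[X] := fun n hn =>
    nzd _ (by simp [coeff_X_pow, hn.symm])
  have ev : eval 1 (∑ k ∈ Finset.range (p + 1), (1 - 2 * X) ^ k * (1 - X) ^ (p + 1 - 1 - k) : S[X])
      = (-1) ^ p := by
    rw [eval_finsetSum, Finset.sum_range_succ, Finset.sum_eq_zero]
    · simp; norm_num
    · intro k hk
      have : p - k ≠ 0 := by have := Finset.mem_range.mp hk; omega
      simp [this]
  rw [mul_assoc] at h
  have h2 := (_root_.mem_nonZeroDivisors_iff.mp (r1 q hq)).1 _ h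
  have hj : j = 0 := by
    have := congrArg (eval 1) h2
    rw [eval_mul, ev] at this
    simp only [eval_sub, eval_mul, eval_one, eval_X, eval_C, sub_self, zero_mul, one_mul, zero_sub,
      eval_zero, mul_neg, neg_eq_zero] at this
    exact ((isUnit_one.neg.pow p).mul_right_eq_zero).mp this
  refine ⟨?_, hj⟩
  rw [hj, C_0, mul_zero, sub_zero, mul_left_comm] at h2
  have h3 := (_root_.mem_nonZeroDivisors_iff.mp (by simpa using r1 1 one_ne_zero)).1 _ h2
  have := congrArg (eval 1) h3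
  rw [eval_mul, ev, eval_C, eval_zero] at this
  exact ((isUnit_one.neg.pow p).mul_right_eq_zero).mp this

lemma main (S : Type) [CommRing S] (Y : Type) [AddCommGroup Y] (ι : Y →+ S) (i j : Y) (p q : ℕ)
    (hp : p ≠ 0) (hq : q ≠ 0)
    (h : Commute ((PresentedGroup.of (Sum.inl i) : PresentedGroup (rels Y)) ^ p)
      ((PresentedGroup.of (Sum.inr j) : PresentedGroup (rels Y)) ^ q)) : ι i = 0 ∧ ι j = 0 := by
  let K := FractionRing S[X]
  let φ : S[X] →+* K := algebraMap S[X] K
  have hφ : Function.Injective φ := IsFractionRing.injective S[X] K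
  have un : ∀ f : S[X], f ∈ nonZeroDivisors S[X] → IsUnit (φ f) := fun f hf =>
    IsLocalization.map_units K ⟨f, hf⟩
  obtain ⟨T, hT⟩ := un X monic_X.mem_nonZeroDivisors
  obtain ⟨U, hU⟩ := un (1 - X) (nzd _ (by simp))
  obtain ⟨V, hV⟩ := un (1 - 2 * X) (nzd _ (by simp))
  have hU' : (U : K) = 1 - T := by rw [hU, hT]; simp
  have hV' : (V : K) = 1 - 2 * T := by rw [hV, hT]; simp [map_ofNat]
  let A : Kˣ := V * U⁻¹
  have hA : (A : K) * (1 - T) = 1 - 2 * T := by rw [← hU', ← hV']; simp [A]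
  let c : Y → K := fun y => φ (C (ι y))
  have cadd : ∀ y z, c (y + z) = c y + c z := fun y z => by simp [c]
  have csub : ∀ y z, c (y - z) = c y - c z := fun y z => by simp [c]
  let g : Y ⊕ Y → Equiv.Perm K := Sum.elim (fun y => aff A (c y)) (fun y => aff T ((1 - T) * c y))
  have hg : ∀ r ∈ rels Y, FreeGroup.lift g r = 1 := by
    rintro _ ⟨y, z, rfl⟩
    simp only [map_mul, map_inv, FreeGroup.lift_apply_of, g, Sum.elim_inl, Sum.elim_inr]
    rw [mul_inv_eq_one, mul_inv_eq_iff_eq_mul]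
    ext t
    simp only [Equiv.Perm.mul_apply, aff_apply, cadd, csub]
    linear_combination (c z) * hA
  have h2 := h.map (PresentedGroup.toGroup hg)
  simp only [map_pow, PresentedGroup.toGroup.of, g, Sum.elim_inl, Sum.elim_inr] at h2
  have h3 := congrArg (fun e : Equiv.Perm K => e 0) h2.eq
  simp only [Equiv.Perm.mul_apply, aff_pow] at h3
  have g1 := mul_neg_geom_sum (A : K) p
  have g2 := mul_neg_geom_sum (T : K) q
  obtain ⟨p, rfl⟩ := Nat.exists_eq_succ_of_ne_zero hp
  have g3 : (∑ k ∈ Finset.range (p + 1), (1 - 2 * (T : K)) ^ k * (1 - (T : K)) ^ (p + 1 - 1 - k)) =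
      (∑ k ∈ Finset.range (p + 1), (A : K) ^ k) * (1 - T) ^ p := by
    rw [Finset.sum_mul]
    refine Finset.sum_congr rfl fun k hk => ?_
    have hk' : k + (p + 1 - 1 - k) = p := by have := Finset.mem_range.mp hk; omega
    rw [← hA, mul_pow, mul_assoc, ← pow_add, hk']
  refine core S (ι i) (ι j) p q hq (hφ ?_)
  simp only [map_mul, map_sub, map_one, map_pow, map_sum, map_zero, map_ofNat, ← hT]
  rw [g3]
  change _ * (_ * c i - _ * c j) = 0
  set s := ∑ k ∈ Finset.range (p + 1), (A : K) ^ k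
  set r := ∑ k ∈ Finset.range q, (T : K) ^ k
  have e1 : (1 - (T : K) ^ q) * s * (c i - (1 - A) * c j) = 0 := by
    simp only [Nat.succ_eq_add_one] at h3 g1
    linear_combination h3 + (1 - (T : K) ^ q) * c j * (-g1) +
      (1 - (A : K) ^ (p + 1)) * c j * g2
  linear_combination (1 - (T : K)) ^ p * (1 - T) * e1 -
    (1 - (T : K) ^ q) * s * (1 - T) ^ p * c j * hA

theorem result (Y : Type) [AddCommGroup Y] (i j : Y) (hij : (i, j) ≠ (0, 0)) (p q : ℤ)
    (hp : p ≠ 0) (hq : q ≠ 0) :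
    (PresentedGroup.of (Sum.inl i) : PresentedGroup (rels Y)) ^ p *
        (PresentedGroup.of (Sum.inr j) : PresentedGroup (rels Y)) ^ q ≠
      (PresentedGroup.of (Sum.inr j) : PresentedGroup (rels Y)) ^ q *
        (PresentedGroup.of (Sum.inl i) : PresentedGroup (rels Y)) ^ p := by
  intro h
  let : Module ℤᵐᵒᵖ Y := Module.compHom Y ((RingEquiv.toOpposite ℤ).symm : ℤᵐᵒᵖ →+* ℤ)
  have : IsCentralScalar ℤ Y := ⟨fun _ _ => rfl⟩
  have := main (TrivSqZeroExt ℤ Y) Y (TrivSqZeroExt.inrHom ℤ Y).toAddMonoidHom i j _ _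
    (Int.natAbs_ne_zero.mpr hp) (Int.natAbs_ne_zero.mpr hq) (commute_natAbs h)
  apply hij
  have e1 : i = 0 := TrivSqZeroExt.inr_injective (R := ℤ) (by simpa using this.1)
  have e2 : j = 0 := TrivSqZeroExt.inr_injective (R := ℤ) (by simpa using this.2)
  rw [e1, e2]

end Pool.Agent.Results.MP_216313_al.AntiTorus
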